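import Pool.Agent.H79.TD.Stm6

set_option autoImplicit false

open MvPolynomial Module Pool.Agent.H77.TF Pool.Agent.H79.TD

namespace Pool.Agent.H31.TD

section
variable {K : Type} [Field K] [Fintype K]

/-- the derivation -/
noncomputable def DD (K : Type) [Field K] [Fintype K] :
    Derivation K (MvPolynomial (Fin 3) K) (MvPolynomial (Fin 3) K) :=
  mkDerivation K (fun i => (X i : MvPolynomial (Fin 3) K) ^ Fintype.card K)

lemma DD_X (i : Fin 3) : DD K (X i) = X i ^ Fintype.card K := mkDerivation_X _ _ _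

lemma card_zero : ((Fintype.card K : ℕ) : MvPolynomial (Fin 3) K) = 0 := by
  have h : ((Fintype.card K : ℕ) : K) = 0 := FiniteField.cast_card_eq_zero K
  have h2 : ((Fintype.card K : ℕ) : MvPolynomial (Fin 3) K) = C ((Fintype.card K : ℕ) : K) :=
    (map_natCast C _).symm
  rw [h2, h, C_0]

lemma DD_Xq (i : Fin 3) : DD K (X i ^ Fintype.card K) = 0 := by
  rw [Derivation.leibniz_pow, ← Nat.cast_smul_eq_nsmul (MvPolynomial (Fin 3) K), card_zero, zero_smul]

lemma TH_eq (f : MvPolynomial (Fin 3) K) : TH f = DD K f := by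
  have h : (∑ i : Fin 3, (X i ^ Fintype.card K : MvPolynomial (Fin 3) K) • (pderiv i :
      Derivation K (MvPolynomial (Fin 3) K) (MvPolynomial (Fin 3) K))) = DD K := by
    refine MvPolynomial.derivation_ext fun i => ?_
    rw [DD_X]
    fin_cases i <;> simp [Fin.sum_univ_three, pderiv_X]
  rw [← h]
  simp [TH, Fin.sum_univ_three]

/-- the shifted polynomial -/
noncomputable def ph (K : Type) [Field K] [Fintype K] :
    MvPolynomial (Fin 3) K →ₐ[K] Polynomial (MvPolynomial (Fin 3) K) :=
  aeval (fun i => Polynomial.C (X i) + Polynomial.C (X i ^ Fintype.card K) * Polynomial.X)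

lemma coeff_ph (f : MvPolynomial (Fin 3) K) :
    ∀ k : ℕ, DD K ((ph K f).coeff k) = ((k + 1 : ℕ) : MvPolynomial (Fin 3) K) * (ph K f).coeff (k + 1) := by
  induction f using MvPolynomial.induction_on with
  | C a =>
    intro k
    have h : ph K (C a) = Polynomial.C (C a) := by
      unfold ph
      rw [aeval_C]
      rfl
    rw [h, Polynomial.coeff_C, Polynomial.coeff_C, if_neg (Nat.succ_ne_zero k), mul_zero]
    split_ifs
    · exact (DD K).map_algebraMap a
    · exact map_zero _
  | add f g hf hg =>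
    intro k
    rw [map_add, Polynomial.coeff_add, Polynomial.coeff_add, map_add, hf, hg, mul_add]
  | mul_X f i hf =>
    intro k
    have h : ph K (f * X i) = ph K f * Polynomial.C (X i) +
        ph K f * Polynomial.C (X i ^ Fintype.card K) * Polynomial.X := by
      rw [map_mul]
      have : ph K (X i) = Polynomial.C (X i) + Polynomial.C (X i ^ Fintype.card K) * Polynomial.X := by
        unfold ph
        rw [aeval_X]
      rw [this]
      ring
    rw [h, Polynomial.coeff_add, Polynomial.coeff_add, Polynomial.coeff_mul_C, Polynomial.coeff_mul_C,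
      Polynomial.coeff_mul_X, Polynomial.coeff_mul_C, map_add, Derivation.leibniz, hf k, DD_X]
    cases k with
    | zero =>
      rw [Polynomial.mul_coeff_zero, Polynomial.coeff_X_zero, mul_zero, map_zero]
      simp only [smul_eq_mul]
      push_cast
      ring
    | succ k =>
      rw [Polynomial.coeff_mul_X, Polynomial.coeff_mul_C, Derivation.leibniz, hf k, DD_Xq]
      simp only [smul_eq_mul]
      push_cast
      ring

lemma coeff_zero_ph (f : MvPolynomial (Fin 3) K) : (ph K f).coeff 0 = f := by
  rw [Polynomial.coeff_zero_eq_eval_zero]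
  have h : ((Polynomial.evalRingHom (0 : MvPolynomial (Fin 3) K)).comp (ph K).toRingHom) =
      RingHom.id _ := by
    refine MvPolynomial.ringHom_ext (fun a => ?_) (fun i => ?_)
    · show Polynomial.eval 0 (ph K (C a)) = C a
      unfold ph
      rw [aeval_C]
      show Polynomial.eval 0 (Polynomial.C (C a)) = C a
      rw [Polynomial.eval_C]
    · show Polynomial.eval 0 (ph K (X i)) = X i
      unfold ph
      rw [aeval_X]
      simp
  exact congrArg (fun g => g f) h

lemma deg_ph {d : ℕ} {G : MvPolynomial (Fin 3) K} (hG : G.IsHomogeneous d) :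
    (ph K G).natDegree ≤ d := by
  have h : ph K G = ∑ m ∈ G.support, algebraMap K _ (coeff m G) *
      ∏ i, (Polynomial.C (X i) + Polynomial.C (X i ^ Fintype.card K) * Polynomial.X :
        Polynomial (MvPolynomial (Fin 3) K)) ^ m i := by
    unfold ph
    rw [aeval_def, eval₂_eq']
  rw [h]
  refine Polynomial.natDegree_sum_le_of_forall_le _ _ fun m hm => ?_
  have hd : ∑ i, m i = d := by
    have := hG (mem_support_iff.1 hm)
    rw [Finsupp.weight_apply, Finsupp.sum_fintype _ _ (by simp)] at this
    simpa using this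
  have h1 : (algebraMap K (Polynomial (MvPolynomial (Fin 3) K)) (coeff m G)).natDegree = 0 :=
    Polynomial.natDegree_C _
  refine Polynomial.natDegree_mul_le.trans ?_
  rw [h1, zero_add]
  refine (Polynomial.natDegree_prod_le _ _).trans ?_
  rw [← hd]
  refine Finset.sum_le_sum fun i _ => ?_
  refine Polynomial.natDegree_pow_le.trans ?_
  have h2 : (Polynomial.C (X i) + Polynomial.C (X i ^ Fintype.card K) * Polynomial.X :
      Polynomial (MvPolynomial (Fin 3) K)).natDegree ≤ 1 := by
    rw [add_comm]
    exact Polynomial.natDegree_linear_le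
  nlinarith

lemma dvd_coeff {d : ℕ} {G : MvPolynomial (Fin 3) K} (hG : G.IsHomogeneous d)
    (hk : ∀ k : ℕ, 0 < k → k ≤ d → (k : K) ≠ 0) (hT : G ∣ TH G) (k : ℕ) :
    G ∣ (ph K G).coeff k := by
  rw [TH_eq] at hT
  induction k with
  | zero => rw [coeff_zero_ph]
  | succ k ih =>
    by_cases hkd : k + 1 ≤ d
    · have h1 := coeff_ph G k
      obtain ⟨h, hh⟩ := ih
      rw [hh, Derivation.leibniz] at h1
      have h2 : G ∣ ((k + 1 : ℕ) : MvPolynomial (Fin 3) K) * (ph K G).coeff (k + 1) := by
        rw [← h1]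
        simp only [smul_eq_mul]
        exact dvd_add (dvd_mul_right _ _) (hT.mul_left _)
      have h3 : ((k + 1 : ℕ) : MvPolynomial (Fin 3) K) = C ((k + 1 : ℕ) : K) := by simp
      have hu : IsUnit ((k + 1 : ℕ) : MvPolynomial (Fin 3) K) := by
        rw [h3]
        exact (isUnit_iff_ne_zero.2 (hk (k + 1) (Nat.succ_pos k) hkd)).map C
      exact (hu.dvd_mul_left).1 h2
    · rw [Polynomial.coeff_eq_zero_of_natDegree_lt (lt_of_le_of_lt (deg_ph hG) (by omega))]
      exact dvd_zero _

/-- zeros spread along `x + s x ^ q` -/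
lemma spread {d : ℕ} {G : MvPolynomial (Fin 3) K} (hG : G.IsHomogeneous d)
    (hk : ∀ k : ℕ, 0 < k → k ≤ d → (k : K) ≠ 0) (hT : G ∣ TH G) {F : Type} [Field F] (j : K →+* F)
    (x : Fin 3 → F) (hx : eval₂ j x G = 0) (s : F) :
    eval₂ j (fun i => x i + x i ^ Fintype.card K * s) G = 0 := by
  have h : ((Polynomial.eval₂RingHom (eval₂Hom j x) s).comp (ph K).toRingHom) =
      eval₂Hom j (fun i => x i + x i ^ Fintype.card K * s) := by
    refine MvPolynomial.ringHom_ext (fun a => ?_) (fun i => ?_)
    · show Polynomial.eval₂ (eval₂Hom j x) s (ph K (C a)) = eval₂ j _ (C a)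
      unfold ph
      rw [aeval_C]
      show Polynomial.eval₂ (eval₂Hom j x) s (Polynomial.C (C a)) = eval₂ j _ (C a)
      rw [Polynomial.eval₂_C, eval₂_C]
      exact eval₂_C _ _ _
    · show Polynomial.eval₂ (eval₂Hom j x) s (ph K (X i)) = eval₂ j _ (X i)
      unfold ph
      rw [aeval_X, eval₂_X, Polynomial.eval₂_add, Polynomial.eval₂_C, Polynomial.eval₂_mul,
        Polynomial.eval₂_C, Polynomial.eval₂_X, map_pow]
      simp
  have h1 : eval₂ j (fun i => x i + x i ^ Fintype.card K * s) G =
      Polynomial.eval₂ (eval₂Hom j x) s (ph K G) := (congrArg (fun g => g G) h).symm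
  rw [h1, Polynomial.eval₂_eq_sum_range]
  refine Finset.sum_eq_zero fun k _ => ?_
  obtain ⟨c, hc⟩ := dvd_coeff hG hk hT k
  rw [hc, map_mul]
  have : eval₂Hom j x G = 0 := hx
  rw [this, zero_mul, zero_mul]

lemma scale {d : ℕ} {G : MvPolynomial (Fin 3) K} (hG : G.IsHomogeneous d) {F : Type} [Field F]
    (j : K →+* F) (x : Fin 3 → F) (s : F) (hx : eval₂ j x G = 0) :
    eval₂ j (fun i => s * x i) G = 0 := by
  rw [eval₂_eq'] at hx ⊢
  have h : ∑ m ∈ G.support, j (coeff m G) * ∏ i, (s * x i) ^ m i =
      s ^ d * ∑ m ∈ G.support, j (coeff m G) * ∏ i, x i ^ m i := by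
    rw [Finset.mul_sum]
    refine Finset.sum_congr rfl fun m hm => ?_
    have hd : ∑ i, m i = d := by
      have := hG (mem_support_iff.1 hm)
      rw [Finsupp.weight_apply, Finsupp.sum_fintype _ _ (by simp)] at this
      simpa using this
    have : ∏ i, (s * x i) ^ m i = s ^ d * ∏ i, x i ^ m i := by
      rw [← hd, ← Finset.prod_pow_eq_pow_sum, ← Finset.prod_mul_distrib]
      exact Finset.prod_congr rfl fun i _ => mul_pow _ _ _
    rw [this]
    ring
  rw [h, hx, mul_zero]

lemma moore {F : Type} [Field F] (j : K →+* F) (x : Fin 3 → F)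
    (hli : ∀ a : Fin 3 → K, ∑ i, j (a i) * x i = 0 → a = 0) (g : Fin 3 → F)
    (hg : ∀ i, g 0 * x i + g 1 * x i ^ Fintype.card K +
      g 2 * (x i ^ Fintype.card K) ^ Fintype.card K = 0) : g = 0 := by
  classical
  letI : Algebra K F := j.toAlgebra
  obtain ⟨q, hq⟩ : ∃ q, q = Fintype.card K := ⟨_, rfl⟩
  have hq2 : 2 ≤ q := by rw [hq]; exact Fintype.one_lt_card
  have hadd : ∀ y z : F, (y + z) ^ q = y ^ q + z ^ q := fun y z => by
    rw [hq]; exact map_add (FiniteField.frobeniusAlgHom K F) y z
  have hjq : ∀ a : K, j a ^ q = j a := fun a => by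
    rw [← map_pow, hq, FiniteField.pow_card]
  by_contra hne
  let p : Polynomial F := Polynomial.C (g 0) * Polynomial.X + Polynomial.C (g 1) * Polynomial.X ^ q +
    Polynomial.C (g 2) * Polynomial.X ^ (q * q)
  have hqq : q < q * q := by nlinarith
  have hp : p ≠ 0 := by
    intro h0
    have c0 : p.coeff 1 = g 0 := by
      simp only [p, Polynomial.coeff_add, Polynomial.coeff_C_mul, Polynomial.coeff_X_pow,
        Polynomial.coeff_X_one]
      rw [if_neg (by omega), if_neg (by omega)]
      ring
    have c1 : p.coeff q = g 1 := by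
      simp only [p, Polynomial.coeff_add, Polynomial.coeff_C_mul, Polynomial.coeff_X_pow,
        Polynomial.coeff_X]
      simp [show (1:ℕ) ≠ q by omega, show q ≠ q * q by omega]
    have c2 : p.coeff (q * q) = g 2 := by
      simp only [p, Polynomial.coeff_add, Polynomial.coeff_C_mul, Polynomial.coeff_X_pow,
        Polynomial.coeff_X]
      simp [show (1:ℕ) ≠ q * q by omega, show q * q ≠ q by omega]
    rw [h0, Polynomial.coeff_zero] at c0 c1 c2
    exact hne (funext fun i => by fin_cases i <;> [exact c0.symm; exact c1.symm; exact c2.symm])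
  have hdeg : p.natDegree ≤ q * q := by
    refine Polynomial.natDegree_add_le_of_degree_le (Polynomial.natDegree_add_le_of_degree_le ?_ ?_) ?_
    · exact ((Polynomial.natDegree_C_mul_le _ _).trans Polynomial.natDegree_X_le).trans (by omega)
    · exact (Polynomial.natDegree_C_mul_X_pow_le _ _).trans (by omega)
    · exact Polynomial.natDegree_C_mul_X_pow_le _ _
  have hroot : ∀ a : Fin 3 → K, (∑ i, j (a i) * x i) ∈ p.roots.toFinset := by
    intro a
    rw [Multiset.mem_toFinset, Polynomial.mem_roots hp, Polynomial.IsRoot.def]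
    have e1 : (∑ i, j (a i) * x i) ^ q = ∑ i, j (a i) * x i ^ q := by
      rw [Fin.sum_univ_three, Fin.sum_univ_three, hadd, hadd, mul_pow, mul_pow, mul_pow, hjq, hjq, hjq]
    have e2 : (∑ i, j (a i) * x i) ^ (q * q) = ∑ i, j (a i) * (x i ^ q) ^ q := by
      rw [pow_mul, e1, Fin.sum_univ_three, Fin.sum_univ_three, hadd, hadd, mul_pow, mul_pow, mul_pow,
        hjq, hjq, hjq]
    simp only [p, Polynomial.eval_add, Polynomial.eval_mul, Polynomial.eval_C, Polynomial.eval_X,
      Polynomial.eval_pow]
    rw [e2, e1]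
    have h0 := hg 0
    have h1 := hg 1
    have h2 := hg 2
    rw [← hq] at h0 h1 h2
    rw [Fin.sum_univ_three, Fin.sum_univ_three, Fin.sum_univ_three]
    linear_combination j (a 0) * h0 + j (a 1) * h1 + j (a 2) * h2
  have hinj : Function.Injective (fun a : Fin 3 → K => ∑ i, j (a i) * x i) := by
    intro a b hab
    have : a - b = 0 := by
      refine hli _ ?_
      have hab' : ∑ i, j (a i) * x i = ∑ i, j (b i) * x i := hab
      simp only [Pi.sub_apply, map_sub, sub_mul, Finset.sum_sub_distrib, hab', sub_self]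
    exact sub_eq_zero.1 this
  have hc : Fintype.card (Fin 3 → K) ≤ p.roots.toFinset.card := by
    rw [← Finset.card_univ]
    exact Finset.card_le_card_of_injOn _ (fun a _ => hroot a) hinj.injOn
  rw [Fintype.card_fun, Fintype.card_fin, ← hq] at hc
  have h3 := (hc.trans (Multiset.toFinset_card_le _)).trans ((Polynomial.card_roots' p).trans hdeg)
  have : q ^ 3 = q * (q * q) := by ring
  rw [this] at h3
  nlinarith

lemma dvd_lin {G : MvPolynomial (Fin 3) K} (hG : Irreducible G) {a : Fin 3 → K} (ha : a ≠ 0)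
    (h : G ∣ lin a) : lin a ∣ G := by
  classical
  have hl0 : lin a ≠ 0 := by
    intro h0
    obtain ⟨i, hi⟩ := Function.ne_iff.1 ha
    have h1 : eval (Pi.single i 1) (lin a) = a i := by
      simp [lin, Pi.single_apply]
    rw [h0, map_zero] at h1
    exact hi h1.symm
  obtain ⟨c, hc⟩ := h
  have hc0 : c ≠ 0 := fun h0 => hl0 (by rw [hc, h0, mul_zero])
  have hd := totalDegree_mul_of_isDomain hG.ne_zero hc0
  rw [← hc] at hd
  have h1 : (lin a).totalDegree ≤ 1 := by
    unfold lin
    refine totalDegree_finsetSum_le fun i _ => ?_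
    refine (totalDegree_mul _ _).trans ?_
    rw [totalDegree_C, zero_add, totalDegree_X]
  have h2 : G.totalDegree ≠ 0 := by
    intro h0
    rw [totalDegree_eq_zero_iff_eq_C] at h0
    refine hG.not_isUnit ?_
    rw [h0]
    refine (isUnit_iff_ne_zero.2 fun h3 => hG.ne_zero ?_).map C
    rw [h0, h3, C_0]
  have h3 : c.totalDegree = 0 := by omega
  rw [totalDegree_eq_zero_iff_eq_C] at h3
  have hu : IsUnit c := by
    rw [h3]
    refine (isUnit_iff_ne_zero.2 fun h4 => hc0 ?_).map C
    rw [h3, h4, C_0]
  rw [hc]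
  exact (hu.mul_right_dvd).2 dvd_rfl

/-- the zeros fill the space -/
lemma fill {d : ℕ} {G : MvPolynomial (Fin 3) K} (hG : G.IsHomogeneous d) (hG0 : G ≠ 0)
    (hk : ∀ k : ℕ, 0 < k → k ≤ d → (k : K) ≠ 0) (hT : G ∣ TH G) {F : Type} [Field F] [IsAlgClosed F]
    (j : K →+* F) (x : Fin 3 → F) (hx : eval₂ j x G = 0)
    (hli : ∀ a : Fin 3 → K, ∑ i, j (a i) * x i = 0 → a = 0) : False := by
  classical
  letI : Algebra K F := j.toAlgebra
  obtain ⟨q, hq⟩ : ∃ q, q = Fintype.card K := ⟨_, rfl⟩
  have hadd : ∀ y z : F, (y + z) ^ q = y ^ q + z ^ q := fun y z => by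
    rw [hq]; exact map_add (FiniteField.frobeniusAlgHom K F) y z
  let w : Fin 3 → (Fin 3 → F) := ![x, fun i => x i ^ q, fun i => (x i ^ q) ^ q]
  have hw : LinearIndependent F w := by
    rw [Fintype.linearIndependent_iff]
    intro g hg
    have h0 : g = 0 := by
      refine moore j x hli g fun i => ?_
      have h1 := congrFun hg i
      rw [← hq]
      simpa [w, Fin.sum_univ_three] using h1
    intro i
    rw [h0]
    rfl
  let b := basisOfLinearIndependentOfCardEqFinrank hw (by simp)
  have hb : ∀ i, b i = w i := fun i => by simp [b]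
  have key : ∀ κ μ : F, eval₂ j (fun i => x i + κ * x i ^ q + μ * (x i ^ q) ^ q) G = 0 := by
    intro κ μ
    obtain ⟨s, hs⟩ : ∃ s : F, (κ - s) * s ^ q = μ := by
      have hdeg : ((Polynomial.C κ - Polynomial.X) * Polynomial.X ^ q - Polynomial.C μ :
          Polynomial F).degree ≠ 0 := by
        have hn : ((Polynomial.C κ - Polynomial.X) * Polynomial.X ^ q - Polynomial.C μ :
          Polynomial F).coeff (q + 1) = -1 := by
          rw [Polynomial.coeff_sub, sub_mul, Polynomial.coeff_sub, Polynomial.coeff_C_mul_X_pow,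
            if_neg (by omega), ← pow_succ', Polynomial.coeff_X_pow, if_pos rfl, Polynomial.coeff_C,
            if_neg (by omega)]
          ring
        intro h0
        have h1 := Polynomial.coeff_eq_zero_of_degree_lt (p := ((Polynomial.C κ - Polynomial.X) *
          Polynomial.X ^ q - Polynomial.C μ : Polynomial F)) (n := q + 1) (by
            rw [h0]; exact_mod_cast Nat.succ_pos q)
        rw [hn] at h1
        exact one_ne_zero (neg_eq_zero.1 h1)
      obtain ⟨s, hs⟩ := IsAlgClosed.exists_root _ hdeg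
      refine ⟨s, ?_⟩
      rw [Polynomial.IsRoot.def] at hs
      simpa [sub_eq_zero] using hs
    have h1 := spread hG hk hT j x hx s
    have h2 := spread hG hk hT j _ h1 (κ - s)
    rw [← hq] at h2
    have h3 : (fun i => x i + x i ^ q * s + (x i + x i ^ q * s) ^ q * (κ - s)) =
        fun i => x i + κ * x i ^ q + μ * (x i ^ q) ^ q := by
      funext i
      rw [hadd, mul_pow, ← hs]
      ring
    rw [h3] at h2
    exact h2
  have key2 : ∀ v : Fin 3 → F, b.repr v 0 ≠ 0 → eval₂ j v G = 0 := by
    intro v hv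
    have h1 := scale hG j _ (b.repr v 0) (key (b.repr v 1 / b.repr v 0) (b.repr v 2 / b.repr v 0))
    have h2 : (fun i => b.repr v 0 * (x i + b.repr v 1 / b.repr v 0 * x i ^ q +
        b.repr v 2 / b.repr v 0 * (x i ^ q) ^ q)) = v := by
      have h3 := b.sum_repr v
      funext i
      have h4 := congrFun h3 i
      rw [Fin.sum_univ_three, hb, hb, hb] at h4
      simp only [w, Pi.add_apply, Pi.smul_apply, smul_eq_mul, Matrix.cons_val_zero,
        Matrix.cons_val_one, Matrix.cons_val] at h4
      rw [← h4]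
      field_simp
    rw [h2] at h1
    exact h1
  let L : MvPolynomial (Fin 3) F := ∑ i, C (b.coord 0 (Pi.single i 1)) * X i
  have hL : ∀ v : Fin 3 → F, eval v L = b.repr v 0 := by
    intro v
    have h1 : b.coord 0 v = ∑ i, v i * b.coord 0 (Pi.single i 1) := by
      conv_lhs => rw [← Finset.univ_sum_single v, map_sum]
      refine Finset.sum_congr rfl fun i _ => ?_
      have : (Pi.single i (v i) : Fin 3 → F) = v i • Pi.single i 1 := by
        rw [← Pi.single_smul, smul_eq_mul, mul_one]
      rw [this, map_smul, smul_eq_mul]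
    simp only [L, map_sum, map_mul, eval_C, eval_X]
    rw [← Basis.coord_apply, h1]
    exact Finset.sum_congr rfl fun i _ => mul_comm _ _
  have hQ : map j G * L = 0 := by
    refine MvPolynomial.funext fun v => ?_
    rw [map_mul, map_zero, hL]
    by_cases hv : b.repr v 0 = 0
    · rw [hv, mul_zero]
    · rw [eval_map, key2 v hv, zero_mul]
  rcases mul_eq_zero.1 hQ with h | h
  · exact hG0 ((map_injective j j.injective) (by rw [h, map_zero]))
  · have h1 := hL (w 0)
    rw [h, map_zero, ← hb, Basis.repr_self] at h1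
    simp at h1

theorem t_NCL : S_NCL := by
  intro K _ _ d G hG hd hk hT
  by_contra hcon
  push Not at hcon
  have hprime : Prime G := hG.prime
  have hI : (Ideal.span {G}).IsPrime := (Ideal.span_singleton_prime hG.ne_zero).2 hprime
  have : IsDomain (MvPolynomial (Fin 3) K ⧸ Ideal.span {G}) :=
    (Ideal.Quotient.isDomain_iff_prime _).2 hI
  let ι : MvPolynomial (Fin 3) K →+* AlgebraicClosure (FractionRing
      (MvPolynomial (Fin 3) K ⧸ Ideal.span {G})) :=
    (algebraMap (FractionRing (MvPolynomial (Fin 3) K ⧸ Ideal.span {G})) _).comp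
      ((algebraMap (MvPolynomial (Fin 3) K ⧸ Ideal.span {G}) _).comp (Ideal.Quotient.mk _))
  have hι : ∀ f, ι f = 0 → G ∣ f := by
    intro f hf
    have i1 : Function.Injective (algebraMap (FractionRing (MvPolynomial (Fin 3) K ⧸ Ideal.span {G}))
      (AlgebraicClosure (FractionRing (MvPolynomial (Fin 3) K ⧸ Ideal.span {G})))) :=
      RingHom.injective _
    have i2 : Function.Injective (algebraMap (MvPolynomial (Fin 3) K ⧸ Ideal.span {G})
      (FractionRing (MvPolynomial (Fin 3) K ⧸ Ideal.span {G}))) := IsFractionRing.injective _ _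
    have h1 : algebraMap (MvPolynomial (Fin 3) K ⧸ Ideal.span {G})
      (FractionRing (MvPolynomial (Fin 3) K ⧸ Ideal.span {G})) (Ideal.Quotient.mk _ f) = 0 :=
      i1 (by rw [map_zero]; exact hf)
    have h2 : Ideal.Quotient.mk (Ideal.span {G}) f = 0 := i2 (by rw [map_zero]; exact h1)
    exact Ideal.mem_span_singleton.1 (Ideal.Quotient.eq_zero_iff_mem.1 h2)
  have hιG : ι G = 0 := by
    have : Ideal.Quotient.mk (Ideal.span {G}) G = 0 :=
      Ideal.Quotient.eq_zero_iff_mem.2 (Ideal.mem_span_singleton_self G)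
    simp only [ι, RingHom.comp_apply, this, map_zero]
  have he : ∀ f, eval₂ (ι.comp C) (fun i => ι (X i)) f = ι f := by
    intro f
    have h : eval₂Hom (ι.comp C) (fun i => ι (X i)) = ι :=
      MvPolynomial.ringHom_ext (fun a => by simp) (fun i => by simp)
    exact congrArg (fun g => g f) h
  refine fill hd hG.ne_zero hk hT (ι.comp C) (fun i => ι (X i)) (by rw [he, hιG]) fun a ha => ?_
  by_contra ha0
  refine hcon a ha0 (dvd_lin hG ha0 (hι _ ?_))
  rw [← ha]
  simp [lin]

end

end Pool.Agent.H31.TD
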